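import Pool.Agent.V11113.MP.Fermat2

set_option autoImplicit false

/-!
# Record prime gaps around an integer and around its Fermat quotient, simultaneously

Let `R(p) = log p (log₂ p)² log₄ p / (log₃ p)²`, the order of the largest prime gaps known (starting
library). The Fermat quotient of an integer `n` modulo a prime `p ∤ n` is `(n ^ (p - 1) - 1) / p`
modulo `p`. For every `ε > 0` there is `κ > 0` such that for all large primes `p` and all boxes
`(L, L + N] × (M, M + H]` with `p ^ ε ≤ H ≤ p` and `N H ≥ p ^ (2 + ε)` there are at least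
`N H / p ^ (1 + ε)` integers `n` in `(L, L + N]` whose Fermat quotient has a representative `m` in
`(M, M + H]` such that neither `n` nor `m` has a prime within distance `κ R(p)`.

For `H = p` this concerns the `n` in intervals of length `p ^ (1 + ε)`.

Proof. The Fermat quotients are additive characters of `p`-adic logarithms: the complete sums modulo
`p²` with their additive characters are at most `p` (`Pool.Agent.V11113.MP.Fermat`), which gives the
sums over arithmetic progressions by completion. Then the criterion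
`Pool.Agent.V11113.MP.manyJ` for pairs (an integer, a residue).
-/

namespace Pool.Agent.Results.MP_69be96_nt.FermatQuotients

/-- `R(x) = log x (log log x)^2 log log log log x / (log log log x)^2`. -/
noncomputable def R (x : ℝ) : ℝ :=
  Real.log x * (Real.log (Real.log x)) ^ 2 * Real.log (Real.log (Real.log (Real.log x))) /
    (Real.log (Real.log (Real.log x))) ^ 2

open scoped Classical in
theorem result (ε : ℝ) (h0 : 0 < ε) (h1 : ε ≤ 1) : ∃ κ : ℝ, 0 < κ ∧ ∃ P : ℕ, ∀ p : ℕ, P ≤ p →
    p.Prime → ∀ L N M H : ℕ, (p : ℝ) ^ ε ≤ H → H ≤ p → (p : ℝ) ^ (2 + ε) ≤ N * H →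
    N * H * (p : ℝ) ^ (-(1 + ε)) ≤ ((Finset.Ioc L (L + N)).filter (fun n : ℕ =>
      (∀ q : ℕ, q.Prime → κ * R p < |(q : ℝ) - n|) ∧
      ∃ m : ℕ, M < m ∧ m ≤ M + H ∧ ((n : ℕ) : ZMod (p ^ 2)) ^ (p - 1) = 1 + p * m ∧
      ∀ q : ℕ, q.Prime → κ * R p < |(q : ℝ) - m|)).card :=
  Pool.Agent.V11113.MP.fermat ε h0 h1

end Pool.Agent.Results.MP_69be96_nt.FermatQuotients
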