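import Pool.Agent.V11113.MP.Bil

set_option autoImplicit false

/-!
# Record prime gaps around the values of bilinear forms modulo a prime on arbitrary sets

Let `f(p) = log p (log₂ p)² log₄ p / (log₃ p)²`, the order of the largest prime gaps known (starting
library). Let `A`, `B` be ARBITRARY sets of vectors of length `d` over the field with `p` elements, let
`Q` be an invertible matrix, and let `f`, `g` be ARBITRARY functions with values in the field. If
`|A| |B| H ^ 2 ≥ p ^ (d + 2 + ε)`, `p ^ ε ≤ H ≤ p`, then for at least `|A| |B| H / p ^ (1 + ε / 2)` of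
the pairs `(a, b)` the residue `a · Q b + f a + g b` is represented by an integer of the given
interval `(M, M + H]` which has no prime within distance `κ f(p)`. The constant `κ` depends on `ε`
only. For `H = p` the condition is `|A| |B| ≥ p ^ (d + ε)`.

Special cases: the products `a b` modulo `p` of the elements of two arbitrary sets with
`|A| |B| ≥ p ^ (1 + ε)`; the elements of every coset of every subgroup with at least
`p ^ (1 / 2 + ε)` elements of the multiplicative group; dot products and squared distances
(`Q = -2`, `f a = a · a`, `g b = b · b`) of the points of two arbitrary sets.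

Proof. By the inequality of Cauchy and Schwarz all exponential sums modulo `p` of the family are at
most `√(p ^ d |A| |B|)` (`Pool.Agent.V11113.MP.Bil`). The family is restricted to the interval, and
twisted by the characters of small moduli, by completion (`Pool.Agent.V11113.MP.Loc`); the covering
sieve of the starting library (`Pool.Agent.TH915.PW.crit_int`) gives one good pair, and a removal
argument gives many (`Pool.Agent.V11113.MP.Crit`).
-/

namespace Pool.Agent.Results.MP_69be96_nt.FormsModuloPrimes

/-- `L(x) = log x (log log x)^2 log log log log x / (log log log x)^2`. -/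
noncomputable def L (x : ℝ) : ℝ :=
  Real.log x * (Real.log (Real.log x)) ^ 2 * Real.log (Real.log (Real.log (Real.log x))) /
    (Real.log (Real.log (Real.log x))) ^ 2

open scoped Classical in
theorem result (ε : ℝ) (h0 : 0 < ε) (h1 : ε ≤ 1) : ∃ κ : ℝ, 0 < κ ∧ ∃ P : ℕ, ∀ p : ℕ, P ≤ p →
    p.Prime → ∀ (d : ℕ) (Q : Matrix (Fin d) (Fin d) (ZMod p)), IsUnit Q.det →
    ∀ (A B : Finset (Fin d → ZMod p)) (f g : (Fin d → ZMod p) → ZMod p) (M H : ℕ),
    (p : ℝ) ^ ε ≤ H → H ≤ p →
    (p : ℝ) ^ (d + 2 + ε) ≤ A.card * B.card * (H : ℝ) ^ 2 →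
    A.card * B.card * H * (p : ℝ) ^ (-(1 + ε / 2)) ≤
      ((A ×ˢ B).filter (fun x => ∃ n : ℕ, M < n ∧ n ≤ M + H ∧
        (n : ZMod p) = x.1 ⬝ᵥ Q.mulVec x.2 + f x.1 + g x.2 ∧
        ∀ q : ℕ, q.Prime → κ * L p < |(q : ℝ) - n|)).card :=
  Pool.Agent.V11113.MP.bilinear ε h0 h1

end Pool.Agent.Results.MP_69be96_nt.FormsModuloPrimes
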