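import Pool.Agent.V11113.MP.Mat

set_option autoImplicit false

/-!
# Products of matrices modulo a prime, all of whose entries lie in record prime gaps

Let `R(p) = log p (log₂ p)² log₄ p / (log₃ p)²`, the order of the largest prime gaps known (starting
library). Let `S` be an ARBITRARY set of `r × d` matrices and `T` an ARBITRARY set of `d × s` matrices
over the field with `p` elements, let `f`, `g` be ARBITRARY functions whose values are `r × s` matrices,
and let an interval `[A_ij, A_ij + H_ij)` be given for every entry; `V` is the product of the lengths.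
If `|S| |T| V ^ 2 ≥ p ^ (d (r + s - 1) + 2 r s + ε)` then for at least `|S| |T| V / p ^ (r s + ε / 2)` of
the pairs `(M, N)` in `S × T` ALL the entries of `M N + f(M) + g(N)` (least nonnegative residues) lie
in the given intervals and have no prime within distance `κ R(p)`. The constant `κ` depends only on
`r`, `s` and `ε`, not on `d`.

For the intervals `[0, p)` the condition is `|S| |T| ≥ p ^ (d (r + s - 1) + ε)`. For `s = 1` these are the
images of vectors under matrices: all coordinates of `M x`, if `|S| |T| ≥ p ^ (d r + ε)`. For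
`r = d = s = 2`: all four entries of the products of two `2 × 2` matrices, `|S| |T| ≥ p ^ (6 + ε)` (of the
`p ^ 8` pairs). The case `r = s = 1` is our `FormsModuloPrimes`.

Proof. A nontrivial character sum over the pairs is bilinear; the map `N ↦ h Nᵀ` is at most
`p ^ (d (s - 1))` to one for every nonzero matrix `h` (`Pool.Agent.V11113.MP.Mat`). The criterion is
`Pool.Agent.V1179.MH.crit_gen'` (covering criterion for several integers of the starting library,
`Pool.Agent.Y961.JR.critJ`, for residues modulo `p` in boxes), with a removal argument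
(`Pool.Agent.V11113.MP.ManyG`).
-/

namespace Pool.Agent.Results.MP_69be96_nt.MatrixProducts

/-- `R(x) = log x (log log x)^2 log log log log x / (log log log x)^2`. -/
noncomputable def R (x : ℝ) : ℝ :=
  Real.log x * (Real.log (Real.log x)) ^ 2 * Real.log (Real.log (Real.log (Real.log x))) /
    (Real.log (Real.log (Real.log x))) ^ 2

open scoped Classical in
theorem result (r s : ℕ) (hr : 1 ≤ r) (hs : 1 ≤ s) (ε : ℝ) (h0 : 0 < ε) (h1 : ε ≤ 1) :
    ∃ κ : ℝ, 0 < κ ∧ ∃ P : ℕ, ∀ p : ℕ, P ≤ p → p.Prime →
    ∀ (d : ℕ) (S : Finset (Matrix (Fin r) (Fin d) (ZMod p)))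
    (T : Finset (Matrix (Fin d) (Fin s) (ZMod p)))
    (f : Matrix (Fin r) (Fin d) (ZMod p) → Fin r → Fin s → ZMod p)
    (g : Matrix (Fin d) (Fin s) (ZMod p) → Fin r → Fin s → ZMod p)
    (A H : Fin r → Fin s → ℕ), (∀ i j, A i j + H i j ≤ p) → (∀ i j, (p : ℝ) ^ ε ≤ H i j) →
    (p : ℝ) ^ ((d * (r + s - 1) : ℝ) + 2 * (r * s) + ε) ≤
      S.card * T.card * (∏ i, ∏ j, (H i j : ℝ)) ^ 2 →
    (S.card : ℝ) * T.card * (∏ i, ∏ j, (H i j : ℝ)) * (p : ℝ) ^ (-((r * s : ℝ) + ε / 2)) ≤
      ((S ×ˢ T).filter (fun x => ∀ i j,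
        A i j ≤ ((x.1 * x.2) i j + f x.1 i j + g x.2 i j).val ∧
        ((x.1 * x.2) i j + f x.1 i j + g x.2 i j).val < A i j + H i j ∧
        ∀ q : ℕ, q.Prime →
          κ * R p < |(q : ℝ) - ((x.1 * x.2) i j + f x.1 i j + g x.2 i j).val|)).card :=
  Pool.Agent.V11113.MP.matprod r s hr hs ε h0 h1

end Pool.Agent.Results.MP_69be96_nt.MatrixProducts
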