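import Pool.Agent.V11113.MP.Config

set_option autoImplicit false

/-!
# Point configurations in arbitrary sets modulo a prime, all of whose distances lie in record gaps

Let `R(p) = log p (log₂ p)² log₄ p / (log₃ p)²`, the order of the largest prime gaps known (starting
library). Let `G` be a graph with the vertices `1, …, k` and `r` edges. With every vertex an ARBITRARY
set `E_i` of vectors of length `d` over the field with `p` elements is given, and with every edge
`ij` a function `u_ij(x, y) = x · Q y + f(x) + g(y)` with an invertible matrix `Q` and arbitrary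
functions `f`, `g` (depending on the edge), and an interval of length `H_ij`. If
`|E_i| |E_j| V ^ 2 ≥ p ^ (d + 2 r + ε)` for all the edges, where `V` is the product of the `H_ij`, then
for at least `|E_1| ⋯ |E_k| V / p ^ (r + ε / 2)` of the `k`-tuples `x ∈ E_1 × ⋯ × E_k` ALL the residues
`u_ij(x_i, x_j)`, `ij` an edge, are represented by integers of the given intervals which have no prime
within distance `κ R(p)`. The constant `κ` depends only on `k`, `r` and `ε`.

For the intervals `[0, p)` the condition is `|E_i| |E_j| ≥ p ^ (d + ε)`. Special cases: a set of at least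
`p ^ ((d + ε) / 2)` points contains `k` points such that all their `k (k - 1) / 2` squared distances
(least nonnegative residues modulo `p`) lie in record prime gaps; if `|A| |B| ≥ p ^ (1 + ε)` then there are
`a_1, …, a_k` in `A` and `b_1, …, b_l` in `B` all of whose `k l` products modulo `p` lie in record gaps
(complete bipartite graph, `d = 1`). The case of one edge is our `FormsModuloPrimes`.

Proof. A nontrivial character sum over the tuples is bilinear in the two end points of one edge, the
other terms are functions of one of the two (`Pool.Agent.V11113.MP.Config`). The criterion is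
`Pool.Agent.V1179.MH.crit_gen'` (covering criterion for several integers of the starting library,
`Pool.Agent.Y961.JR.critJ`, for residues modulo `p` in boxes), with a removal argument
(`Pool.Agent.V11113.MP.ManyG`).
-/

namespace Pool.Agent.Results.MP_69be96_nt.PointConfigurations

/-- `R(x) = log x (log log x)^2 log log log log x / (log log log x)^2`. -/
noncomputable def R (x : ℝ) : ℝ :=
  Real.log x * (Real.log (Real.log x)) ^ 2 * Real.log (Real.log (Real.log (Real.log x))) /
    (Real.log (Real.log (Real.log x))) ^ 2

open scoped Classical in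
theorem result (k r : ℕ) (hr : 1 ≤ r) (ε : ℝ) (h0 : 0 < ε) (h1 : ε ≤ 1) :
    ∃ κ : ℝ, 0 < κ ∧ ∃ P : ℕ, ∀ p : ℕ, P ≤ p → p.Prime →
    ∀ (d : ℕ) (E : Fin k → Finset (Fin d → ZMod p)) (e : Fin r → Fin k × Fin k),
    Function.Injective e → (∀ s, (e s).1 < (e s).2) →
    ∀ (Q : Fin r → Matrix (Fin d) (Fin d) (ZMod p)), (∀ s, IsUnit (Q s).det) →
    ∀ (f g : Fin r → (Fin d → ZMod p) → ZMod p) (A H : Fin r → ℕ), (∀ s, A s + H s ≤ p) →
    (∀ s, (p : ℝ) ^ ε ≤ H s) →
    (∀ s, (p : ℝ) ^ (d + 2 * r + ε) ≤
      (E (e s).1).card * (E (e s).2).card * (∏ s, (H s : ℝ)) ^ 2) →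
    (∏ i, ((E i).card : ℝ)) * (∏ s, (H s : ℝ)) * (p : ℝ) ^ (-((r : ℝ) + ε / 2)) ≤
      ((Fintype.piFinset E).filter (fun x => ∀ s,
        A s ≤ (x (e s).1 ⬝ᵥ (Q s).mulVec (x (e s).2) + f s (x (e s).1) + g s (x (e s).2)).val ∧
        (x (e s).1 ⬝ᵥ (Q s).mulVec (x (e s).2) + f s (x (e s).1) + g s (x (e s).2)).val <
          A s + H s ∧
        ∀ q : ℕ, q.Prime → κ * R p < |(q : ℝ) - (x (e s).1 ⬝ᵥ (Q s).mulVec (x (e s).2) +
          f s (x (e s).1) + g s (x (e s).2)).val|)).card :=
  Pool.Agent.V11113.MP.configs k r hr ε h0 h1

end Pool.Agent.Results.MP_69be96_nt.PointConfigurations
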